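import Pool.Agent.Lib.helper24.Sparse

set_option autoImplicit false

namespace Pool.Agent.Results.MP_5a03e9_nt.NotSyndetic

open Pool.Agent.Lib.helper24.Sparse

/-- The difference set `A - A` in the integers. -/
def diffSet (A : Set ℕ) : Set ℤ := {z | ∃ a ∈ A, ∃ a' ∈ A, z = (a : ℤ) - a'}

/-- Every block of `L` consecutive integers meets `S`, for some `L ≥ 1`. -/
def Syndetic (S : Set ℤ) : Prop := ∃ L : ℕ, 1 ≤ L ∧ ∀ n : ℤ, ∃ s ∈ S, n ≤ s ∧ s < n + L

/-- Every infinite set of upper Banach density zero has a subset of positive upper relative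
density whose difference set is not syndetic. -/
theorem result (E : Set ℕ) (_h0 : 0 ∉ E) (hE : E.Infinite) (h : upperBanach E = 0) :
    ∃ A ⊆ E, 0 < relUpper E A ∧ ¬ Syndetic (diffSet A) := by
  obtain ⟨A, h1, h2, R, h3, -, h4⟩ := main hE h
  refine ⟨A, h1, h2, ?_⟩
  rintro ⟨L, -, hL⟩
  obtain ⟨b, hb⟩ := h3 L
  obtain ⟨s, ⟨a, ha, a', ha', rfl⟩, h5, h6⟩ := hL (b + 1)
  refine h4 a' ha' (a - a') (hb _ (by omega) (by omega)) ?_
  rwa [show a' + (a - a') = a by omega]

end Pool.Agent.Results.MP_5a03e9_nt.NotSyndetic
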